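import Mathlib

/-!
# Word balls, growth and Folner functions
-/

set_option autoImplicit false

namespace Pool.Agent.Helper759.FG

open scoped Pointwise

variable {G : Type*} [Group G]

/-- the ball of radius `n` about the identity in the word metric -/
def ball (S : Finset G) (n : ℕ) : Set G :=
  {g | ∃ l : List G, l.length ≤ n ∧ (∀ x ∈ l, x ∈ S ∨ x⁻¹ ∈ S) ∧ l.prod = g}

theorem one_mem_ball (S : Finset G) (n : ℕ) : (1 : G) ∈ ball S n :=
  ⟨[], Nat.zero_le _, by simp, rfl⟩

theorem ball_mono (S : Finset G) {m n : ℕ} (h : m ≤ n) : ball S m ⊆ ball S n := by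
  rintro g ⟨l, h1, h2, h3⟩
  exact ⟨l, h1.trans h, h2, h3⟩

theorem mul_mem_ball (S : Finset G) {m n : ℕ} {x y : G} (hx : x ∈ ball S m) (hy : y ∈ ball S n) :
    x * y ∈ ball S (m + n) := by
  obtain ⟨l, h1, h2, rfl⟩ := hx
  obtain ⟨l', h1', h2', rfl⟩ := hy
  refine ⟨l ++ l', by rw [List.length_append]; omega, ?_, List.prod_append⟩
  intro z hz
  rcases List.mem_append.1 hz with h | h
  · exact h2 z h
  · exact h2' z h

theorem inv_mem_ball (S : Finset G) {n : ℕ} {x : G} (hx : x ∈ ball S n) : x⁻¹ ∈ ball S n := by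
  obtain ⟨l, h1, h2, rfl⟩ := hx
  refine ⟨(l.map (fun z => z⁻¹)).reverse, by simpa using h1, ?_, ?_⟩
  · intro z hz
    rw [List.mem_reverse, List.mem_map] at hz
    obtain ⟨y, hy, rfl⟩ := hz
    rcases h2 y hy with h | h
    · right; rwa [inv_inv]
    · left; exact h
  · rw [List.prod_inv_reverse]

theorem inv_mem_ball_iff (S : Finset G) {n : ℕ} {x : G} : x⁻¹ ∈ ball S n ↔ x ∈ ball S n :=
  ⟨fun h => by simpa using inv_mem_ball S h, inv_mem_ball S⟩

theorem mem_ball_one (S : Finset G) {s : G} (h : s ∈ S ∨ s⁻¹ ∈ S) : s ∈ ball S 1 :=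
  ⟨[s], by simp, by simpa using h, by simp⟩

theorem pow_mem_ball (S : Finset G) {m : ℕ} {x : G} (hx : x ∈ ball S m) (k : ℕ) :
    x ^ k ∈ ball S (k * m) := by
  induction k with
  | zero => simpa using one_mem_ball S 0
  | succ k ih =>
    rw [pow_succ, Nat.succ_mul]
    exact mul_mem_ball S ih hx

open Classical in
theorem ball_subset_pow (S : Finset G) (n : ℕ) :
    ball S n ⊆ ((insert 1 (S ∪ S⁻¹)) ^ n : Finset G) := by
  induction n with
  | zero =>
    rintro g ⟨l, h1, h2, rfl⟩
    have : l = [] := List.length_eq_zero_iff.1 (by omega)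
    subst this
    simp
  | succ n ih =>
    rintro g ⟨l, h1, h2, rfl⟩
    rcases l with _ | ⟨x, l⟩
    · have h := ih (one_mem_ball S n)
      rw [Finset.mem_coe] at h ⊢
      rw [pow_succ]
      have := Finset.mul_mem_mul h (Finset.mem_insert_self 1 (S ∪ S⁻¹))
      simpa using this
    · have h : l.prod ∈ ball S n :=
        ⟨l, by simpa using h1, fun y hy => h2 y (List.mem_cons_of_mem _ hy), rfl⟩
      have h' := ih h
      rw [Finset.mem_coe] at h' ⊢
      rw [pow_succ', List.prod_cons]
      refine Finset.mul_mem_mul ?_ h'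
      rcases h2 x List.mem_cons_self with hx | hx
      · exact Finset.mem_insert_of_mem (Finset.mem_union_left _ hx)
      · exact Finset.mem_insert_of_mem (Finset.mem_union_right _ (Finset.mem_inv'.2 hx))

theorem ball_finite (S : Finset G) (n : ℕ) : (ball S n).Finite := by
  classical
  exact (Finset.finite_toSet _).subset (ball_subset_pow S n)

/-- the growth function -/
noncomputable def gr (S : Finset G) (n : ℕ) : ℕ := Nat.card (ball S n)

theorem gr_le (S : Finset G) (n : ℕ) : gr S n ≤ (2 * S.card + 1) ^ n := by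
  classical
  unfold gr
  rw [Nat.card_coe_set_eq]
  refine (Set.ncard_le_ncard (ball_subset_pow S n) (Finset.finite_toSet _)).trans ?_
  rw [Set.ncard_coe_finset]
  refine Finset.card_pow_le.trans (Nat.pow_le_pow_left ?_ n)
  refine (Finset.card_insert_le _ _).trans ?_
  have := Finset.card_union_le S S⁻¹
  rw [Finset.card_inv] at this
  omega

theorem gr_mono (S : Finset G) {m n : ℕ} (h : m ≤ n) : gr S m ≤ gr S n :=
  Nat.card_mono (ball_finite S n) (ball_mono S h)

theorem gr_pos (S : Finset G) (n : ℕ) : 0 < gr S n := by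
  unfold gr
  rw [Nat.card_coe_set_eq]
  exact (Set.ncard_pos (ball_finite S n)).2 ⟨1, one_mem_ball S n⟩

open Classical in
/-- the Folner function; `0` if there is no set with the required property -/
noncomputable def fol (S : Finset G) (n : ℕ) : ℕ :=
  sInf {k : ℕ | ∃ F : Finset G, F.Nonempty ∧ F.card = k ∧
    n * ((F * (S ∪ S⁻¹)) \ F).card ≤ F.card}

open Classical in
/-- `n |∂F| ≤ |F|` -/
def IsFol (S : Finset G) (n : ℕ) (F : Finset G) : Prop :=
  F.Nonempty ∧ n * ((F * (S ∪ S⁻¹)) \ F).card ≤ F.card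

theorem fol_le (S : Finset G) {n : ℕ} {F : Finset G} (h : IsFol S n F) : fol S n ≤ F.card := by
  classical
  exact Nat.sInf_le ⟨F, h.1, rfl, h.2⟩

theorem exists_of_fol_pos (S : Finset G) {n : ℕ} (h : 0 < fol S n) :
    ∃ F : Finset G, IsFol S n F ∧ F.card = fol S n := by
  classical
  have hne := Nat.nonempty_of_pos_sInf h
  obtain ⟨F, h1, h2, h3⟩ := Nat.sInf_mem hne
  exact ⟨F, ⟨h1, h3⟩, h2⟩

theorem fol_pos (S : Finset G) {n : ℕ} {F : Finset G} (h : IsFol S n F) : 0 < fol S n := by
  classical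
  obtain ⟨F', h1, h2, h3⟩ := Nat.sInf_mem
    (s := {k : ℕ | ∃ F : Finset G, F.Nonempty ∧ F.card = k ∧
      n * ((F * (S ∪ S⁻¹)) \ F).card ≤ F.card}) ⟨F.card, F, h.1, rfl, h.2⟩
  unfold fol
  rw [← h2]
  exact h1.card_pos

theorem IsFol.mono {S : Finset G} {m n : ℕ} (h : m ≤ n) {F : Finset G} (hF : IsFol S n F) :
    IsFol S m F := ⟨hF.1, (Nat.mul_le_mul_right _ h).trans hF.2⟩

open Classical in
/-- the number of elements of `F` moved out by a generator is at most the outer boundary -/
theorem leave_gen (S F : Finset G) {s : G} (hs : s ∈ S ∨ s⁻¹ ∈ S) :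
    (F.filter fun x => x * s ∉ F).card ≤ ((F * (S ∪ S⁻¹)) \ F).card := by
  refine Finset.card_le_card_of_injOn (fun x => x * s) ?_ fun x _ y _ h => mul_right_cancel h
  intro x hx
  rw [Finset.mem_coe, Finset.mem_filter] at hx
  rw [Finset.mem_coe, Finset.mem_sdiff]
  refine ⟨Finset.mul_mem_mul hx.1 ?_, hx.2⟩
  rcases hs with h | h
  · exact Finset.mem_union_left _ h
  · exact Finset.mem_union_right _ (Finset.mem_inv'.2 h)

open Classical in
theorem leave_mul (F : Finset G) (x y : G) :
    (F.filter fun z => z * (x * y) ∉ F).card ≤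
      (F.filter fun z => z * x ∉ F).card + (F.filter fun z => z * y ∉ F).card := by
  have h1 : (F.filter fun z => z * (x * y) ∉ F) ⊆
      (F.filter fun z => z * x ∉ F) ∪
        (F.filter fun z => z * x ∈ F ∧ z * x * y ∉ F) := by
    intro z hz
    rw [Finset.mem_filter] at hz
    rw [Finset.mem_union, Finset.mem_filter, Finset.mem_filter]
    by_cases h : z * x ∈ F
    · exact Or.inr ⟨hz.1, h, by rw [mul_assoc]; exact hz.2⟩
    · exact Or.inl ⟨hz.1, h⟩
  have h2 : (F.filter fun z => z * x ∈ F ∧ z * x * y ∉ F).card ≤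
      (F.filter fun z => z * y ∉ F).card := by
    refine Finset.card_le_card_of_injOn (fun z => z * x) ?_ ?_
    · intro z hz
      rw [Finset.mem_coe, Finset.mem_filter] at hz ⊢
      exact ⟨hz.2.1, hz.2.2⟩
    · intro z _ z' _ h
      exact mul_right_cancel h
  exact (Finset.card_le_card h1).trans ((Finset.card_union_le _ _).trans (by omega))

open Classical in
theorem leave_ball (S F : Finset G) {n : ℕ} {g : G} (hg : g ∈ ball S n) :
    (F.filter fun x => x * g ∉ F).card ≤ n * ((F * (S ∪ S⁻¹)) \ F).card := by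
  obtain ⟨l, h1, h2, rfl⟩ := hg
  have key : ∀ l : List G, (∀ x ∈ l, x ∈ S ∨ x⁻¹ ∈ S) →
      (F.filter fun x => x * l.prod ∉ F).card ≤ l.length * ((F * (S ∪ S⁻¹)) \ F).card := by
    intro l hl
    induction l with
    | nil => simp
    | cons x l ih =>
      rw [List.prod_cons, List.length_cons]
      refine (leave_mul F x l.prod).trans ?_
      have h3 := leave_gen S F (hl x List.mem_cons_self)
      have h4 := ih fun y hy => hl y (List.mem_cons_of_mem _ hy)
      calc _ ≤ ((F * (S ∪ S⁻¹)) \ F).card + l.length * ((F * (S ∪ S⁻¹)) \ F).card :=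
            add_le_add h3 h4
        _ = _ := by ring
  exact (key l h2).trans (Nat.mul_le_mul_right _ h1)

end Pool.Agent.Helper759.FG
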