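import Pool.Agent.Helper759.FG.Prod
import Pool.Agent.R636.FolLamp

/-!
# The lamplighter group: growth and Folner sets
-/

set_option autoImplicit false

namespace Pool.Agent.Helper759.FG

open scoped Pointwise
open R636.Fol

open Classical in
/-- generators of the lamplighter group -/
noncomputable def LT : Finset Lamp := {Lamp.t, Lamp.u}

theorem mem_LS (x : Lamp) : x ∈ Lamp.S ↔ x ∈ LT ∨ x⁻¹ ∈ LT := by
  classical
  unfold Lamp.S LT
  simp only [Set.mem_insert_iff, Set.mem_singleton_iff, Finset.mem_insert, Finset.mem_singleton]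
  rw [inv_eq_iff_eq_inv, inv_eq_iff_eq_inv]
  tauto

theorem lamp_closure : Subgroup.closure (LT : Set Lamp) = ⊤ := by
  rw [eq_top_iff, ← Lamp.S_gen, Subgroup.closure_le]
  intro x hx
  rcases (mem_LS x).1 hx with h | h
  · exact Subgroup.subset_closure h
  · exact (Subgroup.inv_mem_iff _).1 (Subgroup.subset_closure h)

theorem lamp_growth (n : ℕ) : 2 ^ n ≤ gr LT n := by
  refine (Lamp.growth_ge n).trans ?_
  unfold gr growth
  rw [Nat.card_coe_set_eq]
  refine Set.ncard_le_ncard ?_ (ball_finite LT n)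
  rintro x ⟨l, h1, h2, h3⟩
  exact ⟨l, h1, fun y hy => (mem_LS y).1 (h2 y hy), h3⟩

open Classical in
theorem lamp_fol (N : ℕ) : ∃ D : Finset Lamp, IsFol LT N D ∧ D.card ≤ 1024 ^ N := by
  rcases Nat.eq_zero_or_pos N with rfl | hN
  · exact ⟨{1}, ⟨Finset.singleton_nonempty _, by simp⟩, by simp⟩
  have hn : 1 ≤ 4 * N := by omega
  refine ⟨(Lamp.Dset (4 * N))⁻¹, ⟨?_, ?_⟩, ?_⟩
  · rw [← Finset.card_pos, Finset.card_inv, Lamp.Dset_card _ hn]
    positivity
  · rw [Finset.card_inv]
    have h1 := Lamp.bd_card_le (4 * N) hn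
    have h2 : (((Lamp.Dset (4 * N))⁻¹ * (LT ∪ LT⁻¹)) \ (Lamp.Dset (4 * N))⁻¹).card ≤
        4 * (bd Lamp.S (Lamp.Dset (4 * N))).card := by
      have h3 : (((Lamp.Dset (4 * N))⁻¹ * (LT ∪ LT⁻¹)) \ (Lamp.Dset (4 * N))⁻¹) ⊆
          ((LT ∪ LT⁻¹) ×ˢ bd Lamp.S (Lamp.Dset (4 * N))).image fun q => q.2⁻¹ * q.1 := by
        intro x hx
        rw [Finset.mem_sdiff] at hx
        obtain ⟨hx1, hx2⟩ := hx
        obtain ⟨y, hy, z, hz, rfl⟩ := Finset.mem_mul.1 hx1
        rw [Finset.mem_image]
        refine ⟨(z, y⁻¹), ?_, by simp⟩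
        rw [Finset.mem_product]
        refine ⟨hz, ?_⟩
        unfold bd
        rw [Finset.mem_filter]
        refine ⟨Finset.mem_inv'.1 hy, z⁻¹, ?_, ?_⟩
        · rw [mem_LS, inv_inv]
          rcases Finset.mem_union.1 hz with h | h
          · exact Or.inr h
          · exact Or.inl (Finset.mem_inv'.1 h)
        · intro h
          apply hx2
          rw [Finset.mem_inv']
          have : (y * z)⁻¹ = z⁻¹ * y⁻¹ := by group
          rwa [this]
      refine (Finset.card_le_card h3).trans (Finset.card_image_le.trans ?_)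
      rw [Finset.card_product]
      refine Nat.mul_le_mul_right _ ?_
      refine (Finset.card_union_le _ _).trans ?_
      rw [Finset.card_inv]
      have : LT.card ≤ 2 := Finset.card_le_two
      omega
    calc N * _ ≤ N * (4 * (bd Lamp.S (Lamp.Dset (4 * N))).card) := Nat.mul_le_mul_left _ h2
      _ = 4 * N * (bd Lamp.S (Lamp.Dset (4 * N))).card := by ring
      _ ≤ _ := h1
  · rw [Finset.card_inv, Lamp.Dset_card _ hn]
    have h1 : 4 * N ≤ 4 ^ N := by
      clear hn
      induction N with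
      | zero => omega
      | succ m ih =>
        rcases Nat.eq_zero_or_pos m with rfl | hm
        · norm_num
        · have := ih hm
          rw [pow_succ]
          have h4 : 4 ≤ 4 ^ m := by
            calc 4 = 4 ^ 1 := by norm_num
              _ ≤ 4 ^ m := Nat.pow_le_pow_right (by norm_num) hm
          omega
    calc 4 * N * 4 ^ (4 * N) ≤ 4 ^ N * 4 ^ (4 * N) := Nat.mul_le_mul_right _ h1
      _ = 1024 ^ N := by
          rw [pow_mul, ← mul_pow]
          norm_num

end Pool.Agent.Helper759.FG
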