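import Pool.Agent.Helper759.FG.Basic

/-!
# Folner functions, growth and colourings of direct products
-/

set_option autoImplicit false

namespace Pool.Agent.Helper759.FG

open scoped Pointwise

section growth
variable {G : Type*} [Group G]

/-- the Coulhon and Saloff-Coste inequality -/
theorem gr_le_of_isFol (S : Finset G) {n N : ℕ} (hN : 2 * n ≤ N) {F : Finset G}
    (hF : IsFol S N F) : gr S n ≤ 2 * F.card := by
  classical
  have hF0 : 0 < F.card := hF.1.card_pos
  set B : Finset G := (ball_finite S n).toFinset with hB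
  have hBc : B.card = gr S n := by
    unfold gr
    rw [Nat.card_coe_set_eq, hB, Set.ncard_eq_toFinset_card _ (ball_finite S n)]
  have hmem : ∀ g, g ∈ B ↔ g ∈ ball S n := fun g => (ball_finite S n).mem_toFinset
  have h1 : ∀ g ∈ B, F.card ≤ 2 * (F.filter fun x => x * g ∈ F).card := by
    intro g hg
    have h2 := leave_ball S F ((hmem g).1 hg)
    have h3 : 2 * (n * ((F * (S ∪ S⁻¹)) \ F).card) ≤ F.card := by
      refine le_trans ?_ (le_trans (Nat.mul_le_mul_right _ hN) hF.2)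
      exact le_of_eq (by ring)
    have h4 := Finset.card_filter_add_card_filter_not (s := F) (fun x => x * g ∈ F)
    omega
  have h5 : ∑ g ∈ B, (F.filter fun x => x * g ∈ F).card ≤ F.card * F.card := by
    have e1 : ∀ g ∈ B, (F.filter fun x => x * g ∈ F).card =
        ∑ x ∈ F, if x * g ∈ F then 1 else 0 := fun g _ => by
      rw [Finset.card_filter]
    rw [Finset.sum_congr rfl e1, Finset.sum_comm]
    refine (Finset.sum_le_card_nsmul _ _ F.card fun x _ => ?_).trans (by rw [smul_eq_mul])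
    rw [← Finset.card_filter]
    refine Finset.card_le_card_of_injOn (fun g => x * g) ?_ fun g _ g' _ h => mul_left_cancel h
    intro g hg
    rw [Finset.mem_coe, Finset.mem_filter] at hg
    exact hg.2
  have h6 : B.card * F.card ≤ 2 * (F.card * F.card) := by
    calc B.card * F.card = ∑ _g ∈ B, F.card := by rw [Finset.sum_const, smul_eq_mul]
      _ ≤ ∑ g ∈ B, 2 * (F.filter fun x => x * g ∈ F).card := Finset.sum_le_sum h1
      _ = 2 * ∑ g ∈ B, (F.filter fun x => x * g ∈ F).card := by rw [Finset.mul_sum]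
      _ ≤ _ := Nat.mul_le_mul_left _ h5
  rw [← mul_assoc] at h6
  rw [← hBc]
  exact Nat.le_of_mul_le_mul_right h6 hF0

end growth

open Classical in
theorem mem_bdry {G : Type*} [Group G] (S F : Finset G) (x : G) :
    x ∈ ((F * (S ∪ S⁻¹)) \ F) ↔ (∃ y ∈ F, ∃ z, (z ∈ S ∨ z⁻¹ ∈ S) ∧ y * z = x) ∧ x ∉ F := by
  rw [Finset.mem_sdiff, Finset.mem_mul]
  constructor
  · rintro ⟨⟨y, hy, z, hz, h⟩, hx⟩
    refine ⟨⟨y, hy, z, ?_, h⟩, hx⟩
    rcases Finset.mem_union.1 hz with h | h
    · exact Or.inl h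
    · exact Or.inr (Finset.mem_inv'.1 h)
  · rintro ⟨⟨y, hy, z, hz, h⟩, hx⟩
    refine ⟨⟨y, hy, z, ?_, h⟩, hx⟩
    rcases hz with h | h
    · exact Finset.mem_union_left _ h
    · exact Finset.mem_union_right _ (Finset.mem_inv'.2 h)

section prod
variable {G L : Type*} [Group G] [Group L]

open Classical in
/-- the generating set of a direct product -/
noncomputable def pgen (S : Finset G) (T : Finset L) : Finset (G × L) :=
  S.image (fun s => (s, (1 : L))) ∪ T.image (fun t => ((1 : G), t))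

theorem mem_pgen (S : Finset G) (T : Finset L) (x : G × L) :
    x ∈ pgen S T ↔ (x.1 ∈ S ∧ x.2 = 1) ∨ (x.1 = 1 ∧ x.2 ∈ T) := by
  classical
  unfold pgen
  rw [Finset.mem_union, Finset.mem_image, Finset.mem_image]
  constructor
  · rintro (⟨s, hs, rfl⟩ | ⟨t, ht, rfl⟩)
    · exact Or.inl ⟨hs, rfl⟩
    · exact Or.inr ⟨rfl, ht⟩
  · rintro (⟨h1, h2⟩ | ⟨h1, h2⟩)
    · exact Or.inl ⟨x.1, h1, Prod.ext rfl h2.symm⟩
    · exact Or.inr ⟨x.2, h2, Prod.ext h1.symm rfl⟩

/-- a letter of the product -/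
theorem letter (S : Finset G) (T : Finset L) {x : G × L} (hx : x ∈ pgen S T ∨ x⁻¹ ∈ pgen S T) :
    ((x.1 ∈ S ∨ x.1⁻¹ ∈ S) ∧ x.2 = 1) ∨ (x.1 = 1 ∧ (x.2 ∈ T ∨ x.2⁻¹ ∈ T)) := by
  rw [mem_pgen, mem_pgen] at hx
  simp only [Prod.fst_inv, Prod.snd_inv, inv_eq_one] at hx
  tauto

theorem fst_mem_ball (S : Finset G) (T : Finset L) {n : ℕ} {x : G × L}
    (hx : x ∈ ball (pgen S T) n) : x.1 ∈ ball S n := by
  obtain ⟨l, h1, h2, rfl⟩ := hx
  have key : ∀ l : List (G × L), (∀ x ∈ l, x ∈ pgen S T ∨ x⁻¹ ∈ pgen S T) →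
      l.prod.1 ∈ ball S l.length := by
    intro l hl
    induction l with
    | nil => exact one_mem_ball S _
    | cons x l ih =>
      have h3 := ih fun y hy => hl y (List.mem_cons_of_mem _ hy)
      rw [List.prod_cons, Prod.fst_mul, List.length_cons, add_comm]
      rcases letter S T (hl x List.mem_cons_self) with h | h
      · exact mul_mem_ball S (mem_ball_one S h.1) h3
      · rw [h.1, one_mul]
        exact ball_mono S (by omega) h3
  exact ball_mono S h1 (key l h2)

theorem inl_mem_ball (S : Finset G) (T : Finset L) {n : ℕ} {g : G} (hg : g ∈ ball S n) :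
    ((g, 1) : G × L) ∈ ball (pgen S T) n := by
  obtain ⟨l, h1, h2, rfl⟩ := hg
  refine ⟨l.map (MonoidHom.inl G L), by simpa using h1, ?_, ?_⟩
  · intro x hx
    obtain ⟨s, hs, rfl⟩ := List.mem_map.1 hx
    rw [mem_pgen, mem_pgen]
    rcases h2 s hs with h | h
    · exact Or.inl (Or.inl ⟨h, rfl⟩)
    · refine Or.inr (Or.inl ⟨h, ?_⟩)
      simp
  · rw [← map_list_prod]
    rfl

theorem inr_mem_ball (S : Finset G) (T : Finset L) {n : ℕ} {y : L} (hy : y ∈ ball T n) :
    ((1, y) : G × L) ∈ ball (pgen S T) n := by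
  obtain ⟨l, h1, h2, rfl⟩ := hy
  refine ⟨l.map (MonoidHom.inr G L), by simpa using h1, ?_, ?_⟩
  · intro x hx
    obtain ⟨s, hs, rfl⟩ := List.mem_map.1 hx
    rw [mem_pgen, mem_pgen]
    rcases h2 s hs with h | h
    · exact Or.inl (Or.inr ⟨rfl, h⟩)
    · refine Or.inr (Or.inr ⟨?_, h⟩)
      simp
  · rw [← map_list_prod]
    rfl

theorem closure_eq_top_of_ball {S : Finset G} (h : ∀ g, ∃ n, g ∈ ball S n) :
    Subgroup.closure (S : Set G) = ⊤ := by
  rw [eq_top_iff]
  rintro g -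
  obtain ⟨n, l, -, h2, rfl⟩ := h g
  refine Subgroup.list_prod_mem _ fun x hx => ?_
  rcases h2 x hx with h | h
  · exact Subgroup.subset_closure h
  · exact (Subgroup.inv_mem_iff _).1 (Subgroup.subset_closure h)

theorem exists_ball {S : Finset G} (h : Subgroup.closure (S : Set G) = ⊤) (g : G) :
    ∃ n, g ∈ ball S n := by
  have hg : g ∈ Subgroup.closure (S : Set G) := by rw [h]; trivial
  induction hg using Subgroup.closure_induction with
  | mem x hx => exact ⟨1, mem_ball_one S (Or.inl hx)⟩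
  | one => exact ⟨0, one_mem_ball S 0⟩
  | mul x y _ _ ihx ihy =>
    obtain ⟨m, hm⟩ := ihx
    obtain ⟨n, hn⟩ := ihy
    exact ⟨m + n, mul_mem_ball S hm hn⟩
  | inv x _ ih =>
    obtain ⟨m, hm⟩ := ih
    exact ⟨m, inv_mem_ball S hm⟩

theorem closure_pgen {S : Finset G} {T : Finset L} (hS : Subgroup.closure (S : Set G) = ⊤)
    (hT : Subgroup.closure (T : Set L) = ⊤) :
    Subgroup.closure (pgen S T : Set (G × L)) = ⊤ := by
  refine closure_eq_top_of_ball fun x => ?_
  obtain ⟨m, hm⟩ := exists_ball hS x.1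
  obtain ⟨n, hn⟩ := exists_ball hT x.2
  refine ⟨m + n, ?_⟩
  have := mul_mem_ball (pgen S T) (inl_mem_ball S T hm) (inr_mem_ball S T hn)
  simpa using this

theorem gr_snd_le (S : Finset G) (T : Finset L) (n : ℕ) : gr T n ≤ gr (pgen S T) n := by
  unfold gr
  rw [Nat.card_coe_set_eq, Nat.card_coe_set_eq]
  refine Set.ncard_le_ncard_of_injOn (fun y => ((1 : G), y)) ?_ ?_ (ball_finite _ _)
  · intro y hy
    exact inr_mem_ball S T hy
  · intro y _ y' _ h
    exact congrArg Prod.snd h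

open Classical in
/-- the product of Folner sets -/
theorem isFol_prod (S : Finset G) (T : Finset L) {n : ℕ} {F : Finset G} {D : Finset L}
    (hF : IsFol S (2 * n) F) (hD : IsFol T (2 * n) D) : IsFol (pgen S T) n (F ×ˢ D) := by
  refine ⟨hF.1.product hD.1, ?_⟩
  have h3 := hF.2
  have h4 := hD.2
  set a := ((F * (S ∪ S⁻¹)) \ F).card with ha
  set b := ((D * (T ∪ T⁻¹)) \ D).card with hb
  have h5 : 2 * (n * (a * D.card + F.card * b)) ≤ 2 * (F.card * D.card) := by
    calc 2 * (n * (a * D.card + F.card * b)) = 2 * n * a * D.card + F.card * (2 * n * b) := by ring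
      _ ≤ F.card * D.card + F.card * D.card :=
          add_le_add (Nat.mul_le_mul_right _ h3) (Nat.mul_le_mul_left _ h4)
      _ = _ := by ring
  have h7 : n * (a * D.card + F.card * b) ≤ F.card * D.card :=
    Nat.le_of_mul_le_mul_left h5 (by norm_num)
  rw [Finset.card_product]
  refine le_trans (Nat.mul_le_mul_left n ?_) h7
  refine le_trans (Finset.card_le_card (t := (((F * (S ∪ S⁻¹)) \ F) ×ˢ D) ∪
    (F ×ˢ ((D * (T ∪ T⁻¹)) \ D))) ?_) ?_
  · intro x hx
    obtain ⟨⟨y, hy, z, hz', rfl⟩, hx2⟩ := (mem_bdry (pgen S T) (F ×ˢ D) x).1 hx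
    rw [Finset.mem_product] at hy
    rw [Finset.mem_union, Finset.mem_product, Finset.mem_product, mem_bdry, mem_bdry]
    rw [Finset.mem_product] at hx2
    rcases letter S T hz' with ⟨h3, h4⟩ | ⟨h3, h4⟩
    · left
      have e2 : (y * z).2 = y.2 := by rw [Prod.snd_mul, h4, mul_one]
      rw [e2] at hx2 ⊢
      exact ⟨⟨⟨y.1, hy.1, z.1, h3, rfl⟩, fun h => hx2 ⟨h, hy.2⟩⟩, hy.2⟩
    · right
      have e1 : (y * z).1 = y.1 := by rw [Prod.fst_mul, h3, mul_one]
      rw [e1] at hx2 ⊢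
      exact ⟨hy.1, ⟨y.2, hy.2, z.2, h4, rfl⟩, fun h => hx2 ⟨hy.1, h⟩⟩
  · refine (Finset.card_union_le _ _).trans ?_
    rw [Finset.card_product, Finset.card_product]

end prod

end Pool.Agent.Helper759.FG
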